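import Pool.Agent.helper25.OAU.Spec

set_option autoImplicit false

namespace Pool.Agent.helper25.OAU

open N68a2faeb N793a5b8e
open Pool.Agent.helper56.SGE hiding Pt
open Pool.Agent.helper56.SGE.QSys
open Pool.Agent.helper98.Tsei Pool.Agent.H54.PT
open Pool.Agent.helper14.AU

def OT1_mx (t : ℕ × ℕ × ℕ) : ℕ := max (max t.1 t.2.1) t.2.2

noncomputable def OT1_a (kd j : ℕ) : ℝ := if kd = 2 ∧ j = 2 then 2 else 1

theorem OT1_a_pos (kd j : ℕ) : 0 < OT1_a kd j := by
  unfold OT1_a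
  split_ifs <;> norm_num

noncomputable def OT1_B (kd d m i : ℕ) : ℝ :=
  if (d - 6) % 3 = 0 then OT1_a kd ((d - 6) / 3)
  else if (d - 6) % 3 = 1 then (if i = m then 1 else OT1_a kd ((d - 6) / 3))
  else (if i + 1 = m then OT1_a kd ((d - 6) / 3) + 1 else 1)

theorem OT1_B_pos (kd d m i : ℕ) : 0 < OT1_B kd d m i := by
  have h := OT1_a_pos kd ((d - 6) / 3)
  unfold OT1_B
  split_ifs <;> linarith

theorem OT1_B0 (kd j m i : ℕ) : OT1_B kd (6 + 3 * j) m i = OT1_a kd j := by
  have h1 : (6 + 3 * j - 6) / 3 = j := by omega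
  have h2 : (6 + 3 * j - 6) % 3 = 0 := by omega
  unfold OT1_B
  rw [h1, h2, if_pos rfl]

theorem OT1_B1 (kd j m i : ℕ) : OT1_B kd (6 + 3 * j + 1) m i = if i = m then 1 else OT1_a kd j := by
  have h1 : (6 + 3 * j + 1 - 6) / 3 = j := by omega
  have h2 : (6 + 3 * j + 1 - 6) % 3 = 1 := by omega
  unfold OT1_B
  rw [h1, h2, if_neg (by norm_num), if_pos rfl]

theorem OT1_B2 (kd j m i : ℕ) :
    OT1_B kd (6 + 3 * j + 2) m i = if i + 1 = m then OT1_a kd j + 1 else 1 := by
  have h1 : (6 + 3 * j + 2 - 6) / 3 = j := by omega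
  have h2 : (6 + 3 * j + 2 - 6) % 3 = 2 := by omega
  unfold OT1_B
  rw [h1, h2, if_neg (by norm_num), if_neg (by norm_num)]

noncomputable def OT1_A (N0 : ℕ) (it : ℕ → Item) (α β : ℕ → ℝ) (t : ℕ × ℕ × ℕ) : ℝ :=
  if 3 ≤ (it ((OT1_mx t - N0) / 27)).1 then
    (if t.1 = (it ((OT1_mx t - N0) / 27)).2.1 ∧ t.2.1 = (it ((OT1_mx t - N0) / 27)).2.2.1 then
      α ((OT1_mx t - N0) / 27) else β ((OT1_mx t - N0) / 27))
  else OT1_B (it ((OT1_mx t - N0) / 27)).1 ((OT1_mx t - N0) % 27) (OT1_mx t) t.1 / 2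

theorem OT1_A_pos (N0 : ℕ) (it : ℕ → Item) (α β : ℕ → ℝ) (h : ∀ g, 0 < α g ∧ 0 < β g)
    (t : ℕ × ℕ × ℕ) : 0 < OT1_A N0 it α β t := by
  unfold OT1_A
  split_ifs
  · exact (h _).1
  · exact (h _).2
  · exact div_pos (OT1_B_pos _ _ _ _) two_pos

theorem OT1_val (N0 : ℕ) (it : ℕ → Item) (α β : ℕ → ℝ) (g d : ℕ) (hd : d < 27) (t : ℕ × ℕ × ℕ)
    (ht : OT1_mx t = N0 + 27 * g + d) : OT1_A N0 it α β t =
      if 3 ≤ (it g).1 then (if t.1 = (it g).2.1 ∧ t.2.1 = (it g).2.2.1 then α g else β g)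
      else OT1_B (it g).1 d (N0 + 27 * g + d) t.1 / 2 := by
  have h1 : (N0 + 27 * g + d - N0) / 27 = g := by omega
  have h2 : (N0 + 27 * g + d - N0) % 27 = d := by omega
  unfold OT1_A
  rw [ht, h1, h2]

theorem OT1_dt (a b c : Pt) (v : ℝ) (h : sarea a b c = v / 2) : dt a b c = v := by
  unfold sarea at h
  unfold dt
  linarith

theorem OT1_gad (hRS : RS_stmt) (N0 g : ℕ) (it : ℕ → Item) (α β : ℕ → ℝ) (P : ℕ → Pt) (j x y z : ℕ)
    (hj : j < 7) (hk : (it g).1 ≤ 2) (c : ℕ) (hc : c = N0 + 27 * g + (6 + 3 * j)) (hx : x < c) (hy : y < c)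
    (hz : z < c)
    (h : ∀ t ∈ r5 c x y z, sarea (P t.1) (P t.2.1) (P t.2.2) = OT1_A N0 it α β t) :
    P x ≠ P y ∧ dt (P x) (P y) (P z) = if (it g).1 = 2 ∧ j = 2 then 1 else 0 := by
  have hk' : ¬ 3 ≤ (it g).1 := by omega
  have e0 := h (x, y, c) (by simp [r5])
  have e1 := h (x, y, c + 1) (by simp [r5])
  have e2 := h (y, x, c + 2) (by simp [r5])
  have e3 := h (c + 1, c, c + 2) (by simp [r5])
  have e4 := h (c + 1, c, z) (by simp [r5])
  rw [OT1_val N0 it α β g (6 + 3 * j) (by omega) (x, y, c) (by simp only [OT1_mx]; omega), if_neg hk',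
    OT1_B0] at e0
  rw [OT1_val N0 it α β g (6 + 3 * j + 1) (by omega) (x, y, c + 1) (by simp only [OT1_mx]; omega), if_neg hk',
    OT1_B1, if_neg (by simp only; omega)] at e1
  rw [OT1_val N0 it α β g (6 + 3 * j + 2) (by omega) (y, x, c + 2) (by simp only [OT1_mx]; omega), if_neg hk',
    OT1_B2, if_neg (by simp only; omega)] at e2
  rw [OT1_val N0 it α β g (6 + 3 * j + 2) (by omega) (c + 1, c, c + 2) (by simp only [OT1_mx]; omega),
    if_neg hk', OT1_B2, if_pos (by simp only; omega)] at e3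
  rw [OT1_val N0 it α β g (6 + 3 * j + 1) (by omega) (c + 1, c, z) (by simp only [OT1_mx]; omega),
    if_neg hk', OT1_B1, if_pos (by simp only; omega)] at e4
  have d0 := OT1_dt _ _ _ _ e0
  have d1 := OT1_dt _ _ _ _ e1
  have d2 := OT1_dt _ _ _ _ e2
  have d3 := OT1_dt _ _ _ _ e3
  have d4 := OT1_dt _ _ _ _ e4
  unfold OT1_a at d0 d1 d3
  by_cases hc2 : (it g).1 = 2 ∧ j = 2
  · rw [if_pos hc2] at d0 d1 d3 ⊢
    exact hRS.2.1 (P x) (P y) (P z) (P c) (P (c + 1)) (P (c + 2)) d0 d1 d2 (by rw [d3]; norm_num) d4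
  · rw [if_neg hc2] at d0 d1 d3 ⊢
    exact hRS.1 (P x) (P y) (P z) (P c) (P (c + 1)) (P (c + 2)) d0 d1 d2 (by rw [d3]; norm_num) d4

theorem OT1_gadmem : ∀ (L : List (ℕ × ℕ × ℕ)) (c j : ℕ) (s : ℕ × ℕ × ℕ), L[j]? = some s →
    ∀ t ∈ r5 (c + 3 * j) s.1 s.2.1 s.2.2, t ∈ gad c L := by
  intro L
  induction L with
  | nil =>
    intro c j s h
    simp at h
  | cons a L ih =>
    intro c j s h t ht
    unfold gad
    rw [List.mem_append]
    cases j with
    | zero =>
      rw [List.getElem?_cons_zero, Option.some.injEq] at h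
      subst h
      left
      simpa using ht
    | succ j =>
      right
      rw [List.getElem?_cons_succ] at h
      refine ih (c + 3) j s h t ?_
      have e : c + 3 * (j + 1) = c + 3 + 3 * j := by omega
      rw [← e]
      exact ht

theorem OT1 (hRS : RS_stmt) (hSR : SR_stmt) : OT1_stmt := by
  intro N0 G it hok hU α β hαβ
  obtain ⟨P, hP⟩ := hU (OT1_A N0 it α β) (fun t _ => OT1_A_pos N0 it α β hαβ t)
  refine ⟨P, fun g hg => ?_⟩
  have hmem : ∀ t ∈ trip' (N0 + 27 * g) (it g),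
      sarea (P t.1) (P t.2.1) (P t.2.2) = OT1_A N0 it α β t := by
    intro t ht
    refine hP t ?_
    unfold sysT'
    rw [List.mem_flatMap]
    exact ⟨g, List.mem_range.2 hg, ht⟩
  have hI := hok g hg
  obtain ⟨h1, h2, h3, h4, h5, h6⟩ := hI
  by_cases hk : (it g).1 ≤ 2
  · have hgad : ∀ (j : ℕ) (s : ℕ × ℕ × ℕ), (rl (N0 + 27 * g) (it g))[j]? = some s → j < 7 →
        s.1 < N0 + 27 * g + (6 + 3 * j) → s.2.1 < N0 + 27 * g + (6 + 3 * j) →
        s.2.2 < N0 + 27 * g + (6 + 3 * j) →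
        P s.1 ≠ P s.2.1 ∧ dt (P s.1) (P s.2.1) (P s.2.2) = if (it g).1 = 2 ∧ j = 2 then 1 else 0 := by
      intro j s hs hj a1 a2 a3
      refine OT1_gad hRS N0 g it α β P j s.1 s.2.1 s.2.2 hj hk (N0 + 27 * g + (6 + 3 * j)) rfl a1 a2 a3 ?_
      intro t ht
      refine hmem t ?_
      unfold trip'
      rw [if_pos hk]
      refine OT1_gadmem _ _ j s hs t ?_
      have e : N0 + 27 * g + 6 + 3 * j = N0 + 27 * g + (6 + 3 * j) := by omega
      rw [e]
      exact ht
    rcases hit : it g with ⟨kd, p, q, r⟩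
    rw [hit] at hgad h1 h2 h3 h4 h5 h6 hk
    simp only at hgad h1 h2 h3 h4 h5 h6 hk
    have hkd : kd = 0 ∨ kd = 1 ∨ kd = 2 := by omega
    rcases hkd with rfl | rfl | rfl
    · have hrl : rl (N0 + 27 * g) (0, p, q, r) = [(p, q, N0 + 27 * g), (p, q, N0 + 27 * g + 2),
          (p, N0 + 27 * g + 2, N0 + 27 * g + 1), (r, N0 + 27 * g + 3, N0 + 27 * g),
          (r, N0 + 27 * g + 4, N0 + 27 * g + 1), (r, N0 + 27 * g + 3, N0 + 27 * g + 4),
          (N0 + 27 * g, N0 + 27 * g + 1, N0 + 27 * g + 5)] := rfl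
      rw [hrl] at hgad
      have hn : ∀ j : ℕ, ¬ (0 = 2 ∧ j = 2) := by omega
      have g0 := hgad 0 _ rfl (by norm_num) (by simp only; omega) (by simp only; omega) (by simp only; omega)
      have g1 := hgad 1 _ rfl (by norm_num) (by simp only; omega) (by simp only; omega) (by simp only; omega)
      have g2 := hgad 2 _ rfl (by norm_num) (by simp only; omega) (by simp only; omega) (by simp only; omega)
      have g3 := hgad 3 _ rfl (by norm_num) (by simp only; omega) (by simp only; omega) (by simp only; omega)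
      have g4 := hgad 4 _ rfl (by norm_num) (by simp only; omega) (by simp only; omega) (by simp only; omega)
      have g5 := hgad 5 _ rfl (by norm_num) (by simp only; omega) (by simp only; omega) (by simp only; omega)
      have g6 := hgad 6 _ rfl (by norm_num) (by simp only; omega) (by simp only; omega) (by simp only; omega)
      rw [if_neg (hn _)] at g0 g1 g2 g3 g4 g5 g6
      simp only at g0 g1 g2 g3 g4 g5 g6
      unfold Need
      rw [if_pos rfl]
      intro hpq
      exact hSR.1 (P p) (P q) (P r) (P (N0 + 27 * g)) (P (N0 + 27 * g + 1)) (P (N0 + 27 * g + 2))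
        (P (N0 + 27 * g + 3)) (P (N0 + 27 * g + 4)) g0.1 g0.2 g1.2 g2.1 g2.2 g3.1 g3.2 g4.1 g4.2 g5.2 g6.1
    · have hrl : rl (N0 + 27 * g) (1, p, q, r) = [(p, q, N0 + 27 * g)] := rfl
      rw [hrl] at hgad
      have g0 := hgad 0 _ rfl (by norm_num) (by simp only; omega) (by simp only; omega) (by simp only; omega)
      unfold Need
      rw [if_neg (by norm_num), if_pos rfl]
      exact g0.1
    · have hrl : rl (N0 + 27 * g) (2, p, q, r) = [(p, q, N0 + 27 * g), (p, r, N0 + 27 * g + 1),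
          (p, N0 + 27 * g, N0 + 27 * g + 1)] := rfl
      rw [hrl] at hgad
      have g0 := hgad 0 _ rfl (by norm_num) (by simp only; omega) (by simp only; omega) (by simp only; omega)
      have g1 := hgad 1 _ rfl (by norm_num) (by simp only; omega) (by simp only; omega) (by simp only; omega)
      have g2 := hgad 2 _ rfl (by norm_num) (by simp only; omega) (by simp only; omega) (by simp only; omega)
      rw [if_neg (by norm_num)] at g0 g1
      rw [if_pos ⟨rfl, rfl⟩] at g2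
      simp only at g0 g1 g2
      unfold Need
      rw [if_neg (by norm_num), if_neg (by norm_num), if_pos rfl]
      intro hpq hpr
      exact hSR.2 (P p) (P q) (P r) (P (N0 + 27 * g)) (P (N0 + 27 * g + 1)) hpq hpr g0.2 g1.2 g2.2
  · have hk3 : 3 ≤ (it g).1 := by omega
    have e1 := hmem ((it g).2.1, (it g).2.2.1, N0 + 27 * g) (by
      unfold trip'
      rw [if_neg hk]
      simp)
    have e2 := hmem ((it g).2.2.1, (it g).2.2.2, N0 + 27 * g) (by
      unfold trip'
      rw [if_neg hk]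
      simp)
    rw [OT1_val N0 it α β g 0 (by norm_num) _ (by simp only [OT1_mx]; omega), if_pos hk3,
      if_pos ⟨rfl, rfl⟩] at e1
    rw [OT1_val N0 it α β g 0 (by norm_num) _ (by simp only [OT1_mx]; omega), if_pos hk3,
      if_neg (fun h => h4 h.1.symm)] at e2
    simp only at e1 e2
    have harea : ∀ (a b c : Pt) (v : ℝ), 0 < v → sarea a b c = v → area a b c = v := by
      intro a b c v hv h
      unfold sarea at h
      unfold area
      have h7 : (b.1 - a.1) * (c.2 - a.2) - (c.1 - a.1) * (b.2 - a.2) = 2 * v := by linarith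
      rw [h7, abs_of_pos (by linarith)]
      ring
    unfold Need
    rw [if_neg (by omega), if_neg (by omega), if_neg (by omega)]
    exact ⟨P (N0 + 27 * g), harea _ _ _ _ (hαβ g).1 e1, harea _ _ _ _ (hαβ g).2 e2⟩

end Pool.Agent.helper25.OAU
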